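import Pool.Agent.Helper93.T53.StD
import Pool.Agent.Helper85.T5C.Base

/-!
# Project T53, module UNI: a symbol with zero plane functions is constant
-/

set_option autoImplicit false

namespace Pool.Agent.Helper85.T53

open Pool.Agent.Helper14.CV (Homog EqC act Tl StFar StFex)
open Pool.Agent.Helper28.WK (Tw evw)
open Pool.Agent.Helper78.W3 (tr Fn3 Tm opL op3 mulL negL Wd3 dX dY oD oN Lw sS M5 bb3 S3PlA S3Trm S3Low0 S3Nf S3Exp S3Lw1 S3Bb)
open Pool.Agent.Helper28.T5 (HTy SymH)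
open Pool.Agent.Helper83.T5C (SHHk SHHkS LBH)
open Pool.Agent.Helper93.TLE (DDE)
open Pool.Agent.Helper93.T53

private lemma un3 (n : ℕ) {a b c d : ℤ} (h : HTy a (3 * b) (3 * c) d) :
    IsUnit (a : ZMod (3 ^ n)) ∧ IsUnit (d : ZMod (3 ^ n)) := by
  have key : ∀ k : ℤ, IsCoprime k 3 → IsUnit (k : ZMod (3 ^ n)) := by
    intro k hk
    rw [ZMod.coe_int_isUnit_iff_isCoprime]
    push_cast
    exact IsCoprime.pow_left hk.symm
  rcases h with ⟨h, _⟩ | ⟨h, _⟩
  · exact ⟨key a ⟨d, -(3 * b * c), by linear_combination h⟩,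
      key d ⟨a, -(3 * b * c), by linear_combination h⟩⟩
  · exact ⟨key a ⟨-d, 3 * b * c + 2, by linear_combination (-1) * h⟩,
      key d ⟨-a, 3 * b * c + 2, by linear_combination (-1) * h⟩⟩

/-- The potential has the same values at the images of two vectors under all `(a 3b; 3c d)` of type `HTy`. -/
private def Q {R : Type} (G : ℤ → ℤ → R) (v1 v2 w1 w2 : ℤ) : Prop :=
  ∀ a b c d : ℤ, HTy a (3 * b) (3 * c) d →
    G (a * v1 + 3 * b * v2) (3 * c * v1 + d * v2) = G (a * w1 + 3 * b * w2) (3 * c * w1 + d * w2)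

private theorem nz {a b c d e x y : ℤ} (h : a * d - b * c = e) (he : e ≠ 0) (hv : x ≠ 0 ∨ y ≠ 0) :
    a * x + b * y ≠ 0 ∨ c * x + d * y ≠ 0 := by
  by_contra hcon
  push Not at hcon
  obtain ⟨h1, h2⟩ := hcon
  have hx : e * x = 0 := by rw [← h]; linear_combination d * h1 - b * h2
  have hy : e * y = 0 := by rw [← h]; linear_combination a * h2 - c * h1
  rcases hv with hv | hv
  · exact hv ((mul_eq_zero.1 hx).resolve_left he)
  · exact hv ((mul_eq_zero.1 hy).resolve_left he)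

private theorem Q.symm {R : Type} {G : ℤ → ℤ → R} {v1 v2 w1 w2 : ℤ} (h : Q G v1 v2 w1 w2) :
    Q G w1 w2 v1 v2 := fun a b c d hT => (h a b c d hT).symm

private theorem Q.trans {R : Type} {G : ℤ → ℤ → R} {v1 v2 w1 w2 u1 u2 : ℤ} (h : Q G v1 v2 w1 w2)
    (h' : Q G w1 w2 u1 u2) : Q G v1 v2 u1 u2 := fun a b c d hT => (h a b c d hT).trans (h' a b c d hT)

/-- Scaling a vector. -/
private theorem Q.sc {R : Type} {G : ℤ → ℤ → R} (hH : Homog G) (k v1 v2 : ℤ)
    (hk : k ≠ 0) (hv : v1 ≠ 0 ∨ v2 ≠ 0) : Q G (k * v1) (k * v2) v1 v2 := by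
  intro a b c d hT
  have n := nz rfl hT.det_ne hv
  rw [← hH k _ _ hk n]
  congr 1 <;> ring

/-- Right multiplication by `(5e 3f; 15g 5h)` of determinant five. -/
private theorem Q.mul {R : Type} {G : ℤ → ℤ → R} (hH : Homog G) {v1 v2 w1 w2 : ℤ}
    (hQ : Q G v1 v2 w1 w2) (hv : v1 ≠ 0 ∨ v2 ≠ 0) (hw : w1 ≠ 0 ∨ w2 ≠ 0) (e f g h : ℤ)
    (hM : 5 * e * h - 9 * f * g = 1) :
    Q G (5 * e * v1 + 3 * f * v2) (15 * g * v1 + 5 * h * v2) (5 * e * w1 + 3 * f * w2)
      (15 * g * w1 + 5 * h * w2) := by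
  intro a b c d hT
  rcases hT with ⟨h1, c5⟩ | ⟨h1, a5, c5, d5⟩
  · have hc : (5 : ℤ) ∣ c := by omega
    have hT' : HTy (5 * (a * e + 9 * b * g)) (3 * (a * f + 5 * b * h)) (3 * (5 * (c * e + d * g)))
        (9 * c * f + 5 * d * h) := by
      refine Or.inr ⟨?_, ⟨_, rfl⟩, ⟨3 * (c * e + d * g), by ring⟩, ?_⟩
      · linear_combination (5 * (5 * e * h - 9 * f * g)) * h1 + 5 * hM
      · exact dvd_add (Dvd.dvd.mul_right (Dvd.dvd.mul_left hc 9) f)
          ⟨d * h, by ring⟩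
    have k := hQ _ _ _ _ hT'
    convert k using 2 <;> ring
  · obtain ⟨a', rfl⟩ := a5
    obtain ⟨d', rfl⟩ := d5
    obtain ⟨c', rfl⟩ : (5 : ℤ) ∣ c := by omega
    have hT' : HTy (5 * a' * e + 9 * b * g) (3 * (a' * f + b * h)) (3 * (5 * (c' * e + d' * g)))
        (9 * c' * f + 5 * d' * h) := by
      refine Or.inl ⟨?_, ⟨3 * (c' * e + d' * g), by ring⟩⟩
      have h5 : (5 : ℤ) ≠ 0 := by norm_num
      have h1' : 5 * a' * d' - 9 * b * c' = 1 := mul_left_cancel₀ h5 (by linear_combination h1)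
      linear_combination (5 * e * h - 9 * f * g) * h1' + hM
    have k := hQ _ _ _ _ hT'
    have n1 := nz rfl hT'.det_ne hv
    have n2 := nz rfl hT'.det_ne hw
    rw [← hH 5 _ _ (by norm_num) n1, ← hH 5 _ _ (by norm_num) n2] at k
    convert k using 2 <;> ring

private lemma dvd3' {n : ℤ} : (3 : ℤ) ∣ n ↔ (n : ZMod 3) = 0 :=
  (ZMod.intCast_zmod_eq_zero_iff_dvd n 3).symm

/-- The representatives. -/
private def L : List (ℤ × ℤ × ℤ × ℤ) :=
  [(1, -1, 0, 1), (5, -2, -10, 5), (0, 1, -5, 0), (1, 0, 0, 1), (5, -3, 10, -5), (5, -1, 5, 0),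
    (1, 1, 0, 1), (15, -8, 10, -5), (10, -1, 5, 0), (3, -1, -5, 2), (2, -1, 5, -2), (7, -3, 5, -2)]

private lemma cls : ∀ p q r s : ZMod 3, p * s - q * r = 1 → ∃ t ∈ L,
    q * (t.1 : ZMod 3) - p * (t.2.1 : ZMod 3) = 0 ∧
      r * (t.2.2.2 : ZMod 3) - s * (t.2.2.1 : ZMod 3) = 0 := by decide

/-- UNI. -/
theorem hUni (he : TEdg) (hp : TPlT) (hf : StFar) : TUni := by
  have _ := hp
  intro R _ r s G hG hz
  have hH : Homog G := hG.1
  have key : ∀ (u1 u2 v1 v2 : ℤ), (u1 ≠ 0 ∨ u2 ≠ 0) → (v1 ≠ 0 ∨ v2 ≠ 0) →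
      (∀ (x : ZMod (3 ^ r)) (y : ZMod (3 ^ s)), edgeT u1 u2 v1 v2 G x y = 0) → Q G u1 u2 v1 v2 := by
    intro u1 u2 v1 v2 hu hv h0 a b c d h
    have ha : IsUnit (a : ZMod (3 ^ r)) := (un3 r h).1
    have hd : IsUnit (d : ZMod (3 ^ s)) := (un3 s h).2
    have hq : PlT a b c d ((b : ZMod (3 ^ r)) * (a : ZMod (3 ^ r))⁻¹)
        ((c : ZMod (3 ^ s)) * (d : ZMod (3 ^ s))⁻¹) := by
      refine ⟨h, ?_, ?_⟩
      · rw [mul_assoc, ZMod.inv_mul_of_unit _ ha, mul_one]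
      · rw [mul_assoc, ZMod.inv_mul_of_unit _ hd, mul_one]
    have k := he R _ r s G hG u1 u2 v1 v2 hu hv _ _ a b c d hq
    rw [h0] at k
    exact sub_eq_zero.1 k.symm
  have z := fun i (x : ZMod (3 ^ r)) (y : ZMod (3 ^ s)) => congrFun (congrFun (hz i) x) y
  have q0 : Q G 1 0 (-1) 1 := key _ _ _ _ (by norm_num) (by norm_num) (z 0)
  have q1 : Q G (-3) 5 (-1) 1 := key _ _ _ _ (by norm_num) (by norm_num) (z 1)
  have q2 : Q G (-1) 2 (-3) 5 := key _ _ _ _ (by norm_num) (by norm_num) (z 2)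
  have q3 : Q G 3 5 1 2 := key _ _ _ _ (by norm_num) (by norm_num) (z 3)
  have q4 : Q G 0 1 (-2) 5 := key _ _ _ _ (by norm_num) (by norm_num) (z 4)
  have q5 : Q G (-2) 5 (-1) 2 := key _ _ _ _ (by norm_num) (by norm_num) (z 5)
  have q6 : Q G 1 2 2 5 := key _ _ _ _ (by norm_num) (by norm_num) (z 6)
  have q7 : Q G 7 5 1 1 := key _ _ _ _ (by norm_num) (by norm_num) (z 7)
  have q8 : Q G 2 1 8 5 := key _ _ _ _ (by norm_num) (by norm_num) (z 8)
  -- the paired sides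
  have m1 : Q G 0 1 2 5 := by
    have m := q1.mul hH (by norm_num) (by norm_num) 1 1 1 2 (by norm_num)
    norm_num at m
    have s1 := Q.sc hH 5 0 1 (by norm_num) (by norm_num)
    have s2 := Q.sc hH (-1) 2 5 (by norm_num) (by norm_num)
    norm_num at s1 s2
    exact (s1.symm.trans m).trans s2
  have m4 : Q G 3 5 1 1 := by
    have m := q4.mul hH (by norm_num) (by norm_num) 2 1 1 1 (by norm_num)
    norm_num at m
    have s2 := Q.sc hH (-5) 1 1 (by norm_num) (by norm_num)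
    norm_num at s2
    exact m.trans s2
  have m2 : Q G 7 5 3 2 := by
    have m := q2.mul hH (by norm_num) (by norm_num) 13 12 3 5 (by norm_num)
    norm_num at m
    have s2 := Q.sc hH (-5) 3 2 (by norm_num) (by norm_num)
    norm_num at s2
    exact m.trans s2
  have m3 : Q G 3 2 8 5 := by
    have m := q3.mul hH (by norm_num) (by norm_num) 14 (-13) 3 (-5) (by norm_num)
    norm_num at m
    have s1 := Q.sc hH 5 3 2 (by norm_num) (by norm_num)
    have s2 := Q.sc hH (-1) 8 5 (by norm_num) (by norm_num)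
    norm_num at s1 s2
    exact (s1.symm.trans m).trans s2
  -- all vertices
  have v1 : Q G (-1) 1 1 0 := q0.symm
  have v2 : Q G (-3) 5 1 0 := q1.trans v1
  have v3 : Q G (-1) 2 1 0 := q2.trans v2
  have v4 : Q G (-2) 5 1 0 := q5.trans v3
  have v5 : Q G 0 1 1 0 := q4.trans v4
  have v6 : Q G 2 5 1 0 := m1.symm.trans v5
  have v7 : Q G 1 2 1 0 := q6.trans v6
  have v8 : Q G 3 5 1 0 := q3.trans v7
  have v9 : Q G 1 1 1 0 := m4.symm.trans v8
  have v10 : Q G 7 5 1 0 := q7.trans v9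
  have v11 : Q G 3 2 1 0 := m2.symm.trans v10
  have v12 : Q G 8 5 1 0 := m3.symm.trans v11
  have v13 : Q G 2 1 1 0 := q8.trans v12
  have v0 : Q G 1 0 1 0 := fun _ _ _ _ _ => rfl
  have sc : ∀ v1 v2 : ℤ, (v1 ≠ 0 ∨ v2 ≠ 0) → Q G v1 v2 1 0 → ∀ k x y : ℤ, k ≠ 0 ∧ x = k * v1 ∧
      y = k * v2 → Q G x y 1 0 := by
    rintro v1 v2 hv hQ k x y ⟨hk, rfl, rfl⟩
    exact (Q.sc hH k v1 v2 hk hv).trans hQ
  -- the values at `g∞`, `g0`, `g½`
  have hL : ∀ t ∈ L, HTy t.1 t.2.1 t.2.2.1 t.2.2.2 ∧ Q G t.1 t.2.2.1 1 0 ∧ Q G t.2.1 t.2.2.2 1 0 ∧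
      Q G (t.1 + 2 * t.2.1) (t.2.2.1 + 2 * t.2.2.2) 1 0 := by
    intro t ht
    simp only [L, List.mem_cons, List.not_mem_nil, or_false] at ht
    rcases ht with rfl | rfl | rfl | rfl | rfl | rfl | rfl | rfl | rfl | rfl | rfl | rfl
    · exact ⟨Or.inl (by decide), v0, v1, v3⟩
    · exact ⟨Or.inr (by decide), sc _ _ (by decide) v3 (-5) _ _ (by decide),
        sc _ _ (by decide) v4 1 _ _ (by decide), sc _ _ (by decide) v0 1 _ _ (by decide)⟩
    · exact ⟨Or.inr (by decide), sc _ _ (by decide) v5 (-5) _ _ (by decide),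
        sc _ _ (by decide) v0 1 _ _ (by decide), sc _ _ (by decide) v4 (-1) _ _ (by decide)⟩
    · exact ⟨Or.inl (by decide), v0, v5, v7⟩
    · exact ⟨Or.inr (by decide), sc _ _ (by decide) v7 5 _ _ (by decide),
        sc _ _ (by decide) v8 (-1) _ _ (by decide), sc _ _ (by decide) v0 (-1) _ _ (by decide)⟩
    · exact ⟨Or.inr (by decide), sc _ _ (by decide) v9 5 _ _ (by decide),
        sc _ _ (by decide) v0 (-1) _ _ (by decide), sc _ _ (by decide) v8 1 _ _ (by decide)⟩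
    · exact ⟨Or.inl (by decide), v0, v9, v11⟩
    · exact ⟨Or.inr (by decide), sc _ _ (by decide) v11 5 _ _ (by decide),
        sc _ _ (by decide) v12 (-1) _ _ (by decide), sc _ _ (by decide) v0 (-1) _ _ (by decide)⟩
    · exact ⟨Or.inr (by decide), sc _ _ (by decide) v13 5 _ _ (by decide),
        sc _ _ (by decide) v0 (-1) _ _ (by decide), sc _ _ (by decide) v12 1 _ _ (by decide)⟩
    · exact ⟨Or.inl (by decide), sc _ _ (by decide) v2 (-1) _ _ (by decide),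
        sc _ _ (by decide) v3 1 _ _ (by decide), sc _ _ (by decide) v1 (-1) _ _ (by decide)⟩
    · exact ⟨Or.inl (by decide), sc _ _ (by decide) v6 1 _ _ (by decide),
        sc _ _ (by decide) v7 (-1) _ _ (by decide), sc _ _ (by decide) v5 1 _ _ (by decide)⟩
    · exact ⟨Or.inl (by decide), sc _ _ (by decide) v10 1 _ _ (by decide),
        sc _ _ (by decide) v11 (-1) _ _ (by decide), sc _ _ (by decide) v9 1 _ _ (by decide)⟩
  have fin : ∀ p q r s : ℤ, p * s - q * r = 1 → (5 : ℤ) ∣ r → G p r = G q s ∧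
      G q s = G (p + 2 * q) (r + 2 * s) := by
    intro p q r s hd hpar
    have hc : (p : ZMod 3) * s - q * r = 1 := by
      have h' := congrArg (Int.cast : ℤ → ZMod 3) hd
      push_cast at h'
      exact h'
    obtain ⟨t, htL, c1, c2⟩ := cls _ _ _ _ hc
    obtain ⟨hT, k1, k2, k3⟩ := hL t htL
    obtain ⟨r1, r2, r3, r4⟩ := t
    simp only at hT k1 k2 k3 c1 c2
    obtain ⟨b, hb⟩ : (3 : ℤ) ∣ q * r1 - p * r2 := dvd3'.2 (by push_cast; exact c1)
    obtain ⟨c, hc⟩ : (3 : ℤ) ∣ r * r4 - s * r3 := dvd3'.2 (by push_cast; exact c2)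
    obtain ⟨D, hD0, hDr, hTT⟩ : ∃ D : ℤ, D ≠ 0 ∧ r1 * r4 - r2 * r3 = D ∧
        HTy (p * r4 - q * r3) (3 * b) (3 * c) (s * r1 - r * r2) := by
      rcases hT with ⟨hr, hr3⟩ | ⟨hr, hr1, hr3, hr4⟩
      · refine ⟨1, one_ne_zero, hr, Or.inl ⟨?_, ?_⟩⟩
        · rw [← hb, ← hc]
          linear_combination (p * s - q * r) * hr + hd
        · rw [← hc]
          exact dvd_sub (Dvd.dvd.mul_right hpar _) (Dvd.dvd.mul_left hr3 _)
      · refine ⟨5, by norm_num, hr, Or.inr ⟨?_, ?_, ?_, ?_⟩⟩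
        · rw [← hb, ← hc]
          linear_combination (p * s - q * r) * hr + 5 * hd
        · exact dvd_sub (Dvd.dvd.mul_left hr4 _) (Dvd.dvd.mul_left hr3 _)
        · rw [← hc]
          exact dvd_sub (Dvd.dvd.mul_right hpar _) (Dvd.dvd.mul_left hr3 _)
        · exact dvd_sub (Dvd.dvd.mul_left hr1 _) (Dvd.dvd.mul_right hpar _)
    have go : ∀ x y : ℤ, (x ≠ 0 ∨ y ≠ 0) → Q G (r1 * x + r2 * y) (r3 * x + r4 * y) 1 0 →
        G (p * x + q * y) (r * x + s * y) = G (p * r4 - q * r3) (3 * c) := by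
      intro x y hv hQ
      have k := hQ _ _ _ _ hTT
      have n := nz hd one_ne_zero hv
      rw [← hH D _ _ hD0 n]
      have g1 : D * (p * x + q * y) = (p * r4 - q * r3) * (r1 * x + r2 * y) +
          3 * b * (r3 * x + r4 * y) := by
        rw [← hb, ← hDr]; ring
      have g2 : D * (r * x + s * y) = 3 * c * (r1 * x + r2 * y) +
          (s * r1 - r * r2) * (r3 * x + r4 * y) := by
        rw [← hc, ← hDr]; ring
      rw [g1, g2, k]
      congr 1 <;> ring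
    have a1 := go 1 0 (Or.inl one_ne_zero) (by simpa using k1)
    have a2 := go 0 1 (Or.inr one_ne_zero) (by simpa using k2)
    have a3 := go 1 2 (Or.inl one_ne_zero) (by
      have e1 : r1 * 1 + r2 * 2 = r1 + 2 * r2 := by ring
      have e2 : r3 * 1 + r4 * 2 = r3 + 2 * r4 := by ring
      rw [e1, e2]; exact k3)
    have f1 : p * 1 + q * 0 = p := by ring
    have f2 : r * 1 + s * 0 = r := by ring
    have f3 : p * 0 + q * 1 = q := by ring
    have f4 : r * 0 + s * 1 = s := by ring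
    have f5 : p * 1 + q * 2 = p + 2 * q := by ring
    have f6 : r * 1 + s * 2 = r + 2 * s := by ring
    rw [f1, f2] at a1
    rw [f3, f4] at a2
    rw [f5, f6] at a3
    exact ⟨a1.trans a2.symm, a2.trans a3.symm⟩
  refine Pool.Agent.Helper85.T5C.far5 hf G hH (fun p q r s hd hr => (fin p q r s hd hr).1)
    (fun p q r s hd hr => ?_)
  have e1 := (fin p q r s hd hr).1
  have e2 := fin p (q - p) r (s - r) (by linear_combination hd) hr
  have f5 : p + 2 * (q - p) = 2 * q - p := by ring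
  have f6 : r + 2 * (s - r) = 2 * s - r := by ring
  rw [f5, f6] at e2
  rw [← e1, e2.1, e2.2]

end Pool.Agent.Helper85.T53
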